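import Mathlib
import Pool.Agent.V11145.DomRed
import Pool.Agent.V11145.LaiChangC

/-!
# MP_0828a1_co : the domination surfaces `Γ_4` and `Γ_5`, and part of `Γ_k` for all `k`

* `z_4(x, y) = 1/(4 x + y)` on all of `D_4`;
* `z_5(x, y) = max (1/(5 x + y), 2/(9 x + 3 y))` on all of `D_5`;
* for every `k ≥ 3` and every `(x, y) ∈ D_k`, `z_k(x, y) = 1/(k x + y)` if and only if
  `⌊(k-3)/2⌋ x ≤ y`.
-/

namespace Pool.Agent.Results.MP_0828a1_co.SurfacesFourFive

open Finset Pool.Agent.V11145.DomTrans Pool.Agent.V11145.DomRed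

/-- `D` is a dominating set of the hypergraph with vertex set `Fin n` and edge set `E`:
every vertex outside `D` lies in a common edge with some vertex of `D`. -/
def Dominating {n : ℕ} (E : Finset (Finset (Fin n))) (D : Finset (Fin n)) : Prop :=
  ∀ v, v ∉ D → ∃ u ∈ D, ∃ e ∈ E, u ∈ e ∧ v ∈ e

/-- The domination number: the least size of a dominating set. -/
noncomputable def gamma {n : ℕ} (E : Finset (Finset (Fin n))) : ℕ :=
  sInf {d | ∃ D : Finset (Fin n), Dominating E D ∧ D.card = d}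

/-- `(Fin n, E)` is a nonempty `k`-uniform hypergraph without isolated vertices. -/
def InClass (k n : ℕ) (E : Finset (Finset (Fin n))) : Prop :=
  0 < n ∧ (∀ e ∈ E, e.card = k) ∧ ∀ v, ∃ e ∈ E, v ∈ e

/-- The domain `D_k = {(x, y) : y ≥ 0, x > -y/k}`. -/
def InD (k : ℕ) (x y : ℝ) : Prop := 0 ≤ y ∧ -y / k < x

/-- The ratios `γ(H)/(x n_H + y m_H)` over all `H` in the class. -/
def ratios (k : ℕ) (x y : ℝ) : Set ℝ :=
  {r | ∃ (n : ℕ) (E : Finset (Finset (Fin n))), InClass k n E ∧
    r = (gamma E : ℝ) / (x * n + y * E.card)}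

/-- The function `z_k`. -/
noncomputable def z (k : ℕ) (x y : ℝ) : ℝ := sSup (ratios k x y)

lemma gamma_le {n : ℕ} {E : Finset (Finset (Fin n))} {D : Finset (Fin n)}
    (h : Dominating E D) : gamma E ≤ D.card := Nat.sInf_le ⟨D, h, rfl⟩

lemma exists_gamma {n : ℕ} (E : Finset (Finset (Fin n))) :
    ∃ D : Finset (Fin n), Dominating E D ∧ D.card = gamma E :=
  Nat.sInf_mem (s := {d | ∃ D : Finset (Fin n), Dominating E D ∧ D.card = d})
    ⟨_, Finset.univ, fun v hv => absurd (Finset.mem_univ v) hv, rfl⟩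

/-- `n ≤ k m`. -/
lemma order_le {k n : ℕ} {E : Finset (Finset (Fin n))} (h : InClass k n E) :
    n ≤ k * E.card := by
  have h1 : (Finset.univ : Finset (Fin n)) ⊆ E.biUnion id := by
    intro v _
    obtain ⟨e, he, hv⟩ := h.2.2 v
    exact Finset.mem_biUnion.2 ⟨e, he, hv⟩
  have h2 := (Finset.card_le_card h1).trans Finset.card_biUnion_le
  rw [Finset.card_univ, Fintype.card_fin] at h2
  have h3 : ∑ u ∈ E, (id u).card = ∑ _u ∈ E, k := Finset.sum_congr rfl (fun e he => h.2.1 e he)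
  rw [h3, Finset.sum_const, smul_eq_mul, mul_comm] at h2
  exact h2

lemma kxy_pos {k : ℕ} (hk : 1 ≤ k) {x y : ℝ} (h : InD k x y) : 0 < k * x + y := by
  have hk' : (0:ℝ) < k := by exact_mod_cast hk
  have := h.2
  rw [div_lt_iff₀ hk'] at this
  nlinarith

/-- the denominators are positive -/
lemma denom_pos {k n : ℕ} (hk : 1 ≤ k) {x y : ℝ} (h : InD k x y)
    {E : Finset (Finset (Fin n))} (hE : InClass k n E) : 0 < x * n + y * E.card := by
  have hk' : (0:ℝ) < k := by exact_mod_cast hk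
  have h1 := kxy_pos hk h
  have h2 : (n:ℝ) ≤ k * E.card := by exact_mod_cast order_le hE
  have h3 : (0:ℝ) < n := by exact_mod_cast hE.1
  have h4 : 0 ≤ y * (k * E.card - n) := mul_nonneg h.1 (by linarith)
  have h5 : 0 < (k * x + y) * n := mul_pos h1 h3
  have h6 : k * (x * n + y * E.card) = (k * x + y) * n + y * (k * E.card - n) := by ring
  have h7 : 0 < k * (x * n + y * E.card) := by rw [h6]; linarith
  exact (mul_pos_iff_of_pos_left hk').1 h7

/-- The general upper bound on the domination number. -/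
lemma gamma_bound {k n : ℕ} (hk : 3 ≤ k) {E : Finset (Finset (Fin n))} (hE : InClass k n E) :
    (k + (k - 3) / 2) * gamma E ≤ n + (k - 3) / 2 * E.card := by
  obtain ⟨q, rfl⟩ : ∃ q, k = q + 1 := ⟨k - 1, by omega⟩
  obtain ⟨T, hT, hTc⟩ := domination_bound q (by omega) E hE.2.1 hE.2.2
  have h1 : gamma E ≤ T.card := by
    apply gamma_le
    intro v _
    obtain ⟨e, he, hve, u, hue, huT⟩ := hT v
    exact ⟨u, huT, e, he, hue, hve⟩
  rw [Fintype.card_fin] at hTc
  have h2 : 3 * q / 2 = q + 1 + (q + 1 - 3) / 2 := by omega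
  have h3 : q / 2 - 1 = (q + 1 - 3) / 2 := by omega
  rw [h2, h3] at hTc
  exact (Nat.mul_le_mul_left _ h1).trans hTc

/-- For 5-uniform hypergraphs `9 γ ≤ 2 n`. -/
lemma gamma_five {n : ℕ} {E : Finset (Finset (Fin n))} (hE : InClass 5 n E) :
    9 * gamma E ≤ 2 * n := by
  obtain ⟨T, hT, hTc⟩ := dominating_of_transversal' 4 9 2 2 le_rfl (fun F hF => by
    obtain ⟨T, h1, h2⟩ := Pool.Agent.V11145.LC.lai_chang F.card F rfl hF
    exact ⟨T, h1, by omega⟩) E hE.2.1 hE.2.2
  have h1 : gamma E ≤ T.card := by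
    apply gamma_le
    intro v _
    obtain ⟨e, he, hve, u, hue, huT⟩ := hT v
    exact ⟨u, huT, e, he, hue, hve⟩
  rw [Fintype.card_fin] at hTc
  omega

lemma gamma_le_order {n : ℕ} (E : Finset (Finset (Fin n))) : gamma E ≤ n := by
  have : Dominating E (Finset.univ) := fun v hv => absurd (Finset.mem_univ v) hv
  simpa using gamma_le this

/-- the set of ratios is bounded -/
lemma bdd {k : ℕ} (hk : 1 ≤ k) {x y : ℝ} (h : InD k x y) : BddAbove (ratios k x y) := by
  refine ⟨k / (k * x + y), ?_⟩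
  rintro r ⟨n, E, hE, rfl⟩
  have hk' : (0:ℝ) < k := by exact_mod_cast hk
  have h1 := kxy_pos hk h
  have h2 : (n:ℝ) ≤ k * E.card := by exact_mod_cast order_le hE
  have h4 : 0 ≤ y * (k * E.card - n) := mul_nonneg h.1 (by linarith)
  have h5 : (gamma E : ℝ) ≤ n := by exact_mod_cast gamma_le_order E
  rw [div_le_div_iff₀ (denom_pos hk h hE) h1]
  have h6 : k * (x * n + y * E.card) = (k * x + y) * n + y * (k * E.card - n) := by ring
  rw [h6]
  nlinarith [mul_le_mul_of_nonneg_right h5 h1.le]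

/-- upper bound on the sub-cone -/
lemma ratio_le {k : ℕ} (hk : 3 ≤ k) {x y : ℝ} (h : InD k x y)
    (hy : (((k - 3) / 2 : ℕ) : ℝ) * x ≤ y) {r : ℝ} (hr : r ∈ ratios k x y) :
    r ≤ 1 / (k * x + y) := by
  obtain ⟨n, E, hE, rfl⟩ := hr
  have h1 := kxy_pos (by omega) h
  have h2 : (n:ℝ) ≤ k * E.card := by exact_mod_cast order_le hE
  have h3 : ((k:ℝ) + (((k - 3) / 2 : ℕ) : ℝ)) * gamma E ≤ n + (((k - 3) / 2 : ℕ) : ℝ) * E.card := by
    exact_mod_cast gamma_bound hk hE
  set c : ℝ := (((k - 3) / 2 : ℕ) : ℝ) with hc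
  have hc0 : 0 ≤ c := by rw [hc]; positivity
  have hk' : (0:ℝ) < k := by exact_mod_cast (by omega : 0 < k)
  rw [div_le_div_iff₀ (denom_pos (by omega) h hE) h1, one_mul]
  have h4 : 0 ≤ (y - c * x) * (k * E.card - n) := mul_nonneg (by linarith) (by linarith)
  have h5 : (k * x + y) * ((k + c) * gamma E) ≤ (k * x + y) * (n + c * E.card) :=
    mul_le_mul_of_nonneg_left h3 h1.le
  have h6 : (k + c) * (x * n + y * E.card)
      = (k * x + y) * (n + c * E.card) + (y - c * x) * (k * E.card - n) := by ring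
  have h7 : (k + c) * (gamma E * (k * x + y)) ≤ (k + c) * (x * n + y * E.card) := by
    rw [h6]
    calc (k + c) * (gamma E * (k * x + y)) = (k * x + y) * ((k + c) * gamma E) := by ring
      _ ≤ _ := by linarith
  exact le_of_mul_le_mul_left h7 (by linarith)

/-- the single edge -/
lemma one_le_z {k : ℕ} (hk : 1 ≤ k) {x y : ℝ} (h : InD k x y) : 1 / (k * x + y) ≤ z k x y := by
  have hcl : InClass k k ({Finset.univ} : Finset (Finset (Fin k))) := by
    refine ⟨hk, ?_, ?_⟩
    · intro e he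
      rw [Finset.mem_singleton] at he
      rw [he]; simp
    · intro v
      exact ⟨Finset.univ, Finset.mem_singleton_self _, Finset.mem_univ v⟩
  have hg : 1 ≤ gamma ({Finset.univ} : Finset (Finset (Fin k))) := by
    obtain ⟨D, hD, hDc⟩ := exists_gamma ({Finset.univ} : Finset (Finset (Fin k)))
    rw [← hDc]
    by_contra hcon
    have hD0 : D = ∅ := by
      rw [← Finset.card_eq_zero]; omega
    obtain ⟨u, hu, _⟩ := hD ⟨0, hk⟩ (by rw [hD0]; simp)
    rw [hD0] at hu
    simp at hu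
  have hmem : (gamma ({Finset.univ} : Finset (Finset (Fin k))) : ℝ) /
      (x * (k:ℕ) + y * ({Finset.univ} : Finset (Finset (Fin k))).card) ∈ ratios k x y :=
    ⟨k, _, hcl, rfl⟩
  refine le_trans ?_ (le_csSup (bdd hk h) hmem)
  rw [Finset.card_singleton, Nat.cast_one, mul_one, mul_comm x]
  have h1 := kxy_pos hk h
  have h2 : (1:ℝ) ≤ gamma ({Finset.univ} : Finset (Finset (Fin k))) := by exact_mod_cast hg
  gcongr

lemma card_filter_val {n : ℕ} (S : Finset ℕ) (hS : ∀ s ∈ S, s < n) :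
    (Finset.univ.filter (fun i : Fin n => (i:ℕ) ∈ S)).card = S.card := by
  have : (Finset.univ.filter (fun i : Fin n => (i:ℕ) ∈ S)).image (fun i : Fin n => (i:ℕ)) = S := by
    ext s
    simp only [Finset.mem_image, Finset.mem_filter, Finset.mem_univ, true_and]
    constructor
    · rintro ⟨i, hi, rfl⟩; exact hi
    · intro hs; exact ⟨⟨s, hS s hs⟩, hs, rfl⟩
  rw [← this, Finset.card_image_of_injective _ Fin.val_injective, this]

/-- the edge of `Fin n` cut out by a set of natural numbers -/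
def edge (n : ℕ) (S : Finset ℕ) : Finset (Fin n) :=
  Finset.univ.filter (fun i : Fin n => (i:ℕ) ∈ S)

lemma mem_edge {n : ℕ} {S : Finset ℕ} {i : Fin n} : i ∈ edge n S ↔ (i:ℕ) ∈ S := by
  simp [edge]

/-- A `(2a+r+1)`-uniform hypergraph (`r ≤ 1`) with `3` edges, `3a+2r+3` vertices, and
domination number at least two. -/
lemma three_edges (a r : ℕ) (hr : r ≤ 1) : ∃ E : Finset (Finset (Fin (3 * a + 2 * r + 3))),
    InClass (2 * a + r + 1) (3 * a + 2 * r + 3) E ∧ E.card = 3 ∧ 2 ≤ gamma E := by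
  classical
  set n := 3 * a + 2 * r + 3 with hn
  let S1 : Finset ℕ := Finset.Ico 0 (2 * a + r) ∪ {3 * a + r}
  let S2 : Finset ℕ := (Finset.Ico 0 (a + r) ∪ Finset.Ico (2 * a + r) (3 * a + r)) ∪ {3 * a + r + 1}
  let S3 : Finset ℕ := Finset.Ico (a + r) (3 * a + r) ∪ Finset.Ico (3 * a + r + 2) n
  have m1 : ∀ s, s ∈ S1 ↔ s < 2 * a + r ∨ s = 3 * a + r := by
    intro s
    simp only [S1, Finset.mem_union, Finset.mem_Ico, Finset.mem_singleton]
    omega
  have m2 : ∀ s, s ∈ S2 ↔ (s < a + r ∨ (2 * a + r ≤ s ∧ s < 3 * a + r)) ∨ s = 3 * a + r + 1 := by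
    intro s
    simp only [S2, Finset.mem_union, Finset.mem_Ico, Finset.mem_singleton]
    omega
  have m3 : ∀ s, s ∈ S3 ↔ (a + r ≤ s ∧ s < 3 * a + r) ∨ (3 * a + r + 2 ≤ s ∧ s < n) := by
    intro s
    simp only [S3, Finset.mem_union, Finset.mem_Ico]
  have c1 : (edge n S1).card = 2 * a + r + 1 := by
    unfold edge
    rw [card_filter_val S1 (fun s hs => by rw [m1] at hs; omega)]
    rw [Finset.card_union_of_disjoint, Nat.card_Ico, Finset.card_singleton]
    · omega
    · rw [Finset.disjoint_left]; intro s hs hs'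
      rw [Finset.mem_Ico] at hs; rw [Finset.mem_singleton] at hs'; omega
  have c2 : (edge n S2).card = 2 * a + r + 1 := by
    unfold edge
    rw [card_filter_val S2 (fun s hs => by rw [m2] at hs; omega)]
    rw [Finset.card_union_of_disjoint, Finset.card_union_of_disjoint, Nat.card_Ico, Nat.card_Ico,
      Finset.card_singleton]
    · omega
    · rw [Finset.disjoint_left]; intro s hs hs'
      rw [Finset.mem_Ico] at hs hs'; omega
    · rw [Finset.disjoint_left]; intro s hs hs'
      rw [Finset.mem_union, Finset.mem_Ico, Finset.mem_Ico] at hs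
      rw [Finset.mem_singleton] at hs'; omega
  have c3 : (edge n S3).card = 2 * a + r + 1 := by
    unfold edge
    rw [card_filter_val S3 (fun s hs => by rw [m3] at hs; omega)]
    rw [Finset.card_union_of_disjoint, Nat.card_Ico, Nat.card_Ico]
    · omega
    · rw [Finset.disjoint_left]; intro s hs hs'
      rw [Finset.mem_Ico] at hs hs'; omega
  -- private vertices
  let p1 : Fin n := ⟨3 * a + r, by omega⟩
  let p2 : Fin n := ⟨3 * a + r + 1, by omega⟩
  let p3 : Fin n := ⟨3 * a + r + 2, by omega⟩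
  have v1 : (p1 : ℕ) = 3 * a + r := rfl
  have v2 : (p2 : ℕ) = 3 * a + r + 1 := rfl
  have v3 : (p3 : ℕ) = 3 * a + r + 2 := rfl
  have p11 : p1 ∈ edge n S1 := by rw [mem_edge, m1, v1]; omega
  have p12 : p1 ∉ edge n S2 := by rw [mem_edge, m2, v1]; omega
  have p13 : p1 ∉ edge n S3 := by rw [mem_edge, m3, v1]; omega
  have p22 : p2 ∈ edge n S2 := by rw [mem_edge, m2, v2]; omega
  have p21 : p2 ∉ edge n S1 := by rw [mem_edge, m1, v2]; omega
  have p23 : p2 ∉ edge n S3 := by rw [mem_edge, m3, v2]; omega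
  have p33 : p3 ∈ edge n S3 := by rw [mem_edge, m3, v3]; omega
  have p31 : p3 ∉ edge n S1 := by rw [mem_edge, m1, v3]; omega
  have p32 : p3 ∉ edge n S2 := by rw [mem_edge, m2, v3]; omega
  have n12 : edge n S1 ≠ edge n S2 := fun h => p12 (h ▸ p11)
  have n13 : edge n S1 ≠ edge n S3 := fun h => p13 (h ▸ p11)
  have n23 : edge n S2 ≠ edge n S3 := fun h => p23 (h ▸ p22)
  refine ⟨{edge n S1, edge n S2, edge n S3}, ⟨by omega, ?_, ?_⟩, ?_, ?_⟩
  · intro e he
    simp only [Finset.mem_insert, Finset.mem_singleton] at he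
    rcases he with rfl | rfl | rfl
    · exact c1
    · exact c2
    · exact c3
  · intro v
    have hv := v.2
    by_cases h1 : (v:ℕ) ∈ S1
    · exact ⟨edge n S1, by simp, mem_edge.2 h1⟩
    by_cases h2 : (v:ℕ) ∈ S2
    · exact ⟨edge n S2, by simp, mem_edge.2 h2⟩
    refine ⟨edge n S3, by simp, mem_edge.2 ?_⟩
    rw [m1] at h1
    rw [m2] at h2
    rw [m3]
    omega
  · rw [Finset.card_eq_three]
    exact ⟨_, _, _, n12, n13, n23, rfl⟩
  · obtain ⟨D, hD, hDc⟩ := exists_gamma ({edge n S1, edge n S2, edge n S3} : Finset (Finset (Fin n)))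
    rw [← hDc]
    -- D meets each of the three edges
    have key : ∀ (i : Fin n) (S : Finset (Fin n)), i ∈ S →
        (∀ e ∈ ({edge n S1, edge n S2, edge n S3} : Finset (Finset (Fin n))), i ∈ e → e = S) →
        ∃ u ∈ D, u ∈ S := by
      intro i S hi hS
      by_cases hiD : i ∈ D
      · exact ⟨i, hiD, hi⟩
      · obtain ⟨u, hu, e, he, hue, hie⟩ := hD i hiD
        exact ⟨u, hu, hS e he hie ▸ hue⟩
    obtain ⟨u1, hu1, hu1'⟩ := key p1 (edge n S1) p11 (by
      intro e he hie
      simp only [Finset.mem_insert, Finset.mem_singleton] at he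
      rcases he with rfl | rfl | rfl
      · rfl
      · exact absurd hie p12
      · exact absurd hie p13)
    obtain ⟨u2, hu2, hu2'⟩ := key p2 (edge n S2) p22 (by
      intro e he hie
      simp only [Finset.mem_insert, Finset.mem_singleton] at he
      rcases he with rfl | rfl | rfl
      · exact absurd hie p21
      · rfl
      · exact absurd hie p23)
    obtain ⟨u3, hu3, hu3'⟩ := key p3 (edge n S3) p33 (by
      intro e he hie
      simp only [Finset.mem_insert, Finset.mem_singleton] at he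
      rcases he with rfl | rfl | rfl
      · exact absurd hie p31
      · exact absurd hie p32
      · rfl)
    by_contra hcon
    have hle : D.card ≤ 1 := by omega
    rw [Finset.card_le_one] at hle
    have e12 := hle u1 hu1 u2 hu2
    have e13 := hle u1 hu1 u3 hu3
    rw [← e12] at hu2'
    rw [← e13] at hu3'
    rw [mem_edge, m1] at hu1'
    rw [mem_edge, m2] at hu2'
    rw [mem_edge, m3] at hu3'
    omega

lemma two_le_z {k : ℕ} (hk : 3 ≤ k) {x y : ℝ} (h : InD k x y) :
    2 / (((2 * k - (k - 3) / 2 : ℕ) : ℝ) * x + 3 * y) ≤ z k x y := by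
  obtain ⟨E, hE, hE3, hg⟩ := three_edges ((k - 1) / 2) ((k - 1) % 2) (by omega)
  have hk1 : 2 * ((k - 1) / 2) + (k - 1) % 2 + 1 = k := by omega
  have hn : 3 * ((k - 1) / 2) + 2 * ((k - 1) % 2) + 3 = 2 * k - (k - 3) / 2 := by omega
  rw [hk1] at hE
  have hmem : (gamma E : ℝ) / (x * ((3 * ((k - 1) / 2) + 2 * ((k - 1) % 2) + 3 : ℕ) : ℝ)
      + y * E.card) ∈ ratios k x y := ⟨_, E, hE, rfl⟩
  have hpos := denom_pos (by omega) h hE
  refine le_trans ?_ (le_csSup (bdd (by omega) h) hmem)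
  rw [hE3] at hpos ⊢
  have h2 : (2:ℝ) ≤ gamma E := by exact_mod_cast hg
  have hn' : ((3 * ((k - 1) / 2) + 2 * ((k - 1) % 2) + 3 : ℕ) : ℝ)
      = ((2 * k - (k - 3) / 2 : ℕ) : ℝ) := by rw [hn]
  rw [hn'] at hpos ⊢
  have h3 : ((2 * k - (k - 3) / 2 : ℕ) : ℝ) * x + 3 * y
      = x * ((2 * k - (k - 3) / 2 : ℕ) : ℝ) + y * ((3:ℕ) : ℝ) := by push_cast; ring
  rw [h3]
  gcongr

/-- the exact region of the elementary formula -/
lemma region {k : ℕ} (hk : 3 ≤ k) {x y : ℝ} (h : InD k x y) :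
    z k x y = 1 / (k * x + y) ↔ (((k - 3) / 2 : ℕ) : ℝ) * x ≤ y := by
  constructor
  · intro hz
    by_contra hcon
    push Not at hcon
    have h1 := two_le_z hk h
    rw [hz] at h1
    have h2 := kxy_pos (by omega) h
    have hc : ((2 * k - (k - 3) / 2 : ℕ) : ℝ) = 2 * k - (((k - 3) / 2 : ℕ) : ℝ) := by
      rw [Nat.cast_sub (by omega)]; push_cast; ring
    rw [hc] at h1
    have hpos : 0 < (2 * (k:ℝ) - (((k - 3) / 2 : ℕ) : ℝ)) * x + 3 * y := by
      have h3 : (((k - 3) / 2 : ℕ) : ℝ) ≤ k := by exact_mod_cast (by omega : (k - 3) / 2 ≤ k)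
      have hc0 : (0:ℝ) ≤ (((k - 3) / 2 : ℕ) : ℝ) := by positivity
      have hx : 0 < x := by
        by_contra hx
        have : (((k - 3) / 2 : ℕ) : ℝ) * x ≤ 0 := mul_nonpos_of_nonneg_of_nonpos hc0 (by linarith)
        linarith [h.1]
      have hk' : (0:ℝ) < k := by exact_mod_cast (by omega : 0 < k)
      have : 0 < (2 * (k:ℝ) - (((k - 3) / 2 : ℕ) : ℝ)) * x := mul_pos (by linarith) hx
      linarith [h.1]
    rw [div_le_div_iff₀ hpos h2] at h1
    nlinarith
  · intro hy
    apply le_antisymm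
    · apply csSup_le
      · exact ⟨_, k, {Finset.univ}, ⟨by omega, by simp, fun v => ⟨Finset.univ, by simp⟩⟩, rfl⟩
      · intro r hr
        exact ratio_le hk h hy hr
    · exact one_le_z (by omega) h

/-- the surface `Γ_5` -/
lemma z_five {x y : ℝ} (h : InD 5 x y) :
    z 5 x y = max (1 / (5 * x + y)) (2 / (9 * x + 3 * y)) := by
  have h51 := kxy_pos (k := 5) (by norm_num) h
  have h51' : 0 < 5 * x + y := by simpa using h51
  have hreg := region (k := 5) (by norm_num) h
  have hc5 : (((5 - 3) / 2 : ℕ) : ℝ) = 1 := by norm_num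
  rw [hc5, one_mul] at hreg
  have htwo := two_le_z (k := 5) (by norm_num) h
  have hn5 : ((2 * 5 - (5 - 3) / 2 : ℕ) : ℝ) = 9 := by norm_num
  rw [hn5] at htwo
  have hone := one_le_z (k := 5) (by norm_num) h
  have hone' : 1 / (5 * x + y) ≤ z 5 x y := by simpa using hone
  apply le_antisymm
  · rcases le_or_gt x y with hxy | hxy
    · have h1 := hreg.2 hxy
      rw [h1]
      apply le_max_of_le_left
      push_cast
      exact le_refl _
    · apply le_max_of_le_right
      apply csSup_le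
      · exact ⟨_, 5, {Finset.univ}, ⟨by omega, by simp, fun v => ⟨Finset.univ, by simp⟩⟩, rfl⟩
      · rintro r ⟨n, E, hE, rfl⟩
        have hden := denom_pos (by norm_num) h hE
        have h9 : 0 < 9 * x + 3 * y := by
          have := h.1
          linarith
        have h1 : (9:ℝ) * gamma E ≤ 2 * n := by exact_mod_cast gamma_five hE
        have h2 : (6:ℝ) * gamma E ≤ n + E.card := by
          have := gamma_bound (k := 5) (by norm_num) hE
          have h3 : 6 * gamma E ≤ n + E.card := by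
            simpa using this
          exact_mod_cast h3
        rw [div_le_div_iff₀ hden h9]
        have h3 : 0 ≤ (x - y) * (2 * n - 9 * gamma E) :=
          mul_nonneg (by linarith) (by linarith)
        have h4 : 0 ≤ y * (n + E.card - 6 * gamma E) := mul_nonneg h.1 (by linarith)
        nlinarith
  · exact max_le hone' htwo

/-- **Theorem.**  On all of `D_4`, `z_4(x, y) = 1/(4 x + y)`; on all of `D_5`,
`z_5(x, y) = max (1/(5 x + y), 2/(9 x + 3 y))`; and for every `k ≥ 3` and `(x, y) ∈ D_k`, the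
supremum `z_k(x, y)` is finite, it is at least `1/(k x + y)` and at least
`2/((2k - ⌊(k-3)/2⌋) x + 3 y)`, and it is equal to `1/(k x + y)` exactly when
`⌊(k-3)/2⌋ x ≤ y`. -/
theorem result :
    (∀ x y : ℝ, InD 4 x y → z 4 x y = 1 / (4 * x + y)) ∧
    (∀ x y : ℝ, InD 5 x y → z 5 x y = max (1 / (5 * x + y)) (2 / (9 * x + 3 * y))) ∧
    (∀ k : ℕ, 3 ≤ k → ∀ x y : ℝ, InD k x y →
      BddAbove (ratios k x y) ∧
      1 / (k * x + y) ≤ z k x y ∧
      2 / (((2 * k - (k - 3) / 2 : ℕ) : ℝ) * x + 3 * y) ≤ z k x y ∧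
      (z k x y = 1 / (k * x + y) ↔ (((k - 3) / 2 : ℕ) : ℝ) * x ≤ y)) := by
  refine ⟨?_, fun x y h => z_five h, fun k hk x y h => ⟨bdd (by omega) h,
    one_le_z (by omega) h, two_le_z hk h, region hk h⟩⟩
  intro x y h
  have := (region (k := 4) (by norm_num) h).2 (by simpa using h.1)
  simpa using this

end Pool.Agent.Results.MP_0828a1_co.SurfacesFourFive
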